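import Mathlib
import Pool.Agent.H64.Hop.Final

set_option autoImplicit false

/-!
For every `m ≥ 2` there is a graph which does not embed in `N_{4m-1}`, although all its proper
subgraphs embed in `N_{4m-2}`; it is a minor-minimal obstruction for `N_{4m-1}`.
-/

namespace Pool.Agent.Results.MP_05eff7_co.DeletionHoppers

open Pool.Agent.H20.Hop

/-- For every `m ≥ 2` there is a finite `4`-regular graph `G` which is a minor-minimal obstruction
for `N_{4m-1}`, does not embed in `N_{4m-2}`, and all proper subgraphs of which embed in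
`N_{4m-2}`. -/
theorem result (m : ℕ) (hm : 2 ≤ m) : ∃ (V : Type) (_ : Finite V) (G : SimpleGraph V),
    (∀ v, (G.neighborSet v).ncard = 4) ∧ IsObstruction G (4 * m - 1) ∧
    ¬ EmbedsN G (4 * m - 2) ∧ ∀ H : G.Subgraph, H ≠ ⊤ → EmbedsN H.coe (4 * m - 2) :=
  Pool.Agent.H64.Hop.copies_full m hm

end Pool.Agent.Results.MP_05eff7_co.DeletionHoppers
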