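import Mathlib
import Pool.Agent.H20.Hop.Main

set_option autoImplicit false

/-!
If a finite graph is a minor-minimal obstruction for both `N_k` and `N_{k+1}`, then `k ≥ 3`.
-/

namespace Pool.Agent.Results.MP_05eff7_co.GenusAtLeastThree

open Pool.Agent.H20.Hop

/-- A finite graph which is a minor-minimal obstruction for the non-orientable surfaces `N_k` and
`N_{k+1}`, `k ≥ 1`, can only exist for `k ≥ 3`: the lists of forbidden minors of `N_1` and `N_2` are
disjoint, and so are those of `N_2` and `N_3`. -/
theorem result (k : ℕ) (V : Type) [Finite V] (G : SimpleGraph V) (hk : 1 ≤ k)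
    (h1 : IsObstruction G k) (h2 : IsObstruction G (k + 1)) : 3 ≤ k := by
  have _ := hk
  exact (hopper_of_obstruction h1 h2).three_le

end Pool.Agent.Results.MP_05eff7_co.GenusAtLeastThree
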