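import Mathlib
import Pool.Agent.H20.Hop.Linear

set_option autoImplicit false

/-!
A linear bound, for every `k`, for the number of vertices of a finite graph which is a
minor-minimal obstruction for both `N_k` and `N_{k+1}`.
-/

namespace Pool.Agent.Results.MP_05eff7_co.LinearBound

open Pool.Agent.H20.Hop

/-- If `k ≥ 1` and the finite graph `G` is a minor-minimal obstruction for both `N_k` and `N_{k+1}`,
then `G` has at most `3 * 10 ^ 19 * k` vertices. -/
theorem result (k : ℕ) (V : Type) [Finite V] (G : SimpleGraph V) (hk : 1 ≤ k)
    (h1 : IsObstruction G k) (h2 : IsObstruction G (k + 1)) :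
    Nat.card V ≤ 3 * 10 ^ 19 * k := by
  have _ := hk
  have h := (hopper_of_obstruction h1 h2).card_le_linear
  have e : (30000000000000000000 : ℕ) = 3 * 10 ^ 19 := by norm_num
  rw [e] at h
  exact h

end Pool.Agent.Results.MP_05eff7_co.LinearBound
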