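import Mathlib
import Pool.Agent.H20.Hop.Struct

set_option autoImplicit false

/-!
Structure, for every `k`, of a finite graph which is a minor-minimal obstruction for both `N_k` and
`N_{k+1}`.
-/

namespace Pool.Agent.Results.MP_05eff7_co.Structure

open Pool.Agent.H20.Hop

/-- Let `k ≥ 1` and let the finite graph `G` be a minor-minimal obstruction for both `N_k` and
`N_{k+1}`. Then `G` is triangle-free; all degrees are at least four; `|E| ≤ 2 |V| + 2 k - 3`, and at
most `4 k - 6` vertices have degree at least five; `|V| ≥ 14`, and `|V| ≥ d(v) + 9` for every vertex,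
`|V| ≥ d(u) + d(v) + 4` for every edge `uv`; a vertex of degree four has at most two common
neighbours with any other vertex; and for every edge `uv` at least `|V| - 5 k + 7` of the 4-cycles
avoid `uv` (`FourCycles` counts every 4-cycle eight times). -/
theorem result (k : ℕ) (V : Type) [Finite V] (G : SimpleGraph V) (hk : 1 ≤ k)
    (h1 : IsObstruction G k) (h2 : IsObstruction G (k + 1)) :
    (∀ u v w, G.Adj u v → G.Adj v w → ¬ G.Adj w u) ∧
    (∀ v, 4 ≤ (G.neighborSet v).ncard) ∧
    Nat.card G.edgeSet + 3 ≤ 2 * Nat.card V + 2 * k ∧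
    {v | (G.neighborSet v).ncard ≠ 4}.ncard + 6 ≤ 4 * k ∧
    14 ≤ Nat.card V ∧
    (∀ v, (G.neighborSet v).ncard + 9 ≤ Nat.card V) ∧
    (∀ u v, G.Adj u v →
      (G.neighborSet u).ncard + (G.neighborSet v).ncard + 4 ≤ Nat.card V) ∧
    (∀ v w, v ≠ w → (G.neighborSet v).ncard = 4 →
      (G.neighborSet v ∩ G.neighborSet w).ncard ≤ 2) ∧
    (∀ u v, G.Adj u v →
      8 * Nat.card V + 56 ≤ (FourCycles (G.deleteEdges {s(u, v)})).ncard + 40 * k) := by
  have _ := hk
  have h := hopper_of_obstruction h1 h2
  obtain ⟨u, v, huv⟩ := h.exists_adj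
  refine ⟨fun a b c hab hbc hca => h.triangleFree hab hca.symm hbc, h.four_le, h.card_edge_le,
    h.card_big, (h.card_ge huv).2.2, fun a => ?_, fun a b hab => (h.card_ge hab).1,
    fun a b hab ha => h.common_le_two hab ha, fun a b hab => h.fourCycles hab⟩
  obtain ⟨w, hw⟩ := h.noIsol a
  exact (h.card_ge hw).2.1

end Pool.Agent.Results.MP_05eff7_co.Structure
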